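import Mathlib

/-!
Equivelar polyhedral manifolds in Euclidean 3-space with triangular faces.
-/

namespace Pool.Agent.Lib.MP_9035cc_co

/-- Euclidean 3-space. -/
abbrev E3 : Type := EuclideanSpace ℝ (Fin 3)

/-- The edges of a family of triangular faces: all two-element subsets of the faces. -/
def edges {n : ℕ} (faces : Finset (Finset (Fin n))) : Finset (Finset (Fin n)) :=
  faces.biUnion fun F => F.powersetCard 2

/-- `IsEquivelarTri n q g pos faces` says: the triangles `convexHull ℝ (pos '' F)` for
`F ∈ faces` are the faces of an equivelar manifold of type `{3, q; g}` in Euclidean 3-space,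
whose `n` vertices are the points `pos v`. -/
structure IsEquivelarTri (n q g : ℕ) (pos : Fin n → E3) (faces : Finset (Finset (Fin n))) :
    Prop where
  /-- The vertex degree is at least three. -/
  three_le : 3 ≤ q
  /-- Distinct vertices are distinct points. -/
  pos_injective : Function.Injective pos
  /-- Every face has exactly three vertices. -/
  card_face : ∀ F ∈ faces, F.card = 3
  /-- No self-intersections: two faces (closed triangles) meet exactly in the convex hull of
  their common vertices, that is, in nothing, in a common vertex or in a common edge. -/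
  inter : ∀ F ∈ faces, ∀ G ∈ faces,
    convexHull ℝ (pos '' (F : Set (Fin n))) ∩ convexHull ℝ (pos '' (G : Set (Fin n))) =
      convexHull ℝ (pos '' ((F ∩ G : Finset (Fin n)) : Set (Fin n)))
  /-- Closed 2-manifold: the faces containing a vertex `v` are `{v, c i, c (i+1)}` with `i`
  modulo `q`, for `q` distinct vertices `c i` other than `v` (so the link of `v` is one cycle
  of length `q`, and every edge is in exactly two faces). -/
  link : ∀ v : Fin n, ∃ c : ZMod q → Fin n, Function.Injective c ∧ (∀ i, c i ≠ v) ∧
    ∀ F : Finset (Fin n), (F ∈ faces ∧ v ∈ F) ↔ ∃ i, F = {v, c i, c (i + 1)}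
  /-- Every vertex is incident with exactly `q` edges. -/
  degree : ∀ v : Fin n, ((edges faces).filter fun e => v ∈ e).card = q
  /-- The surface is connected. -/
  connected : ∀ u v : Fin n, Relation.ReflTransGen (fun a b => {a, b} ∈ edges faces) u v
  /-- Adjacent faces are not coplanar. -/
  not_coplanar : ∀ F ∈ faces, ∀ G ∈ faces, (F ∩ G).card = 2 →
    ¬ Coplanar ℝ (pos '' ((F ∪ G : Finset (Fin n)) : Set (Fin n)))
  /-- Two edges with a common vertex are not collinear. -/
  not_collinear : ∀ u v w : Fin n, u ≠ w → {u, v} ∈ edges faces → {v, w} ∈ edges faces →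
    ¬ Collinear ℝ ({pos u, pos v, pos w} : Set E3)
  /-- The surface is orientable: the faces can be oriented so that no two of them induce the
  same direction on an edge (`o a b c` says that the oriented face `a → b → c → a` is used). -/
  orientable : ∃ o : Fin n → Fin n → Fin n → Prop,
    (∀ a b c, o a b c → o b c a) ∧
    (∀ F : Finset (Fin n), F ∈ faces ↔ ∃ a b c, o a b c ∧ F = {a, b, c}) ∧
    (∀ a b c d, o a b c → o a b d → c = d)
  /-- The genus is `g`, by Euler's relation. -/
  euler : (n : ℤ) - (edges faces).card + faces.card = 2 - 2 * g

end Pool.Agent.Lib.MP_9035cc_co
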