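import Mathlib
import Pool.Agent.Lib.MP_9035cc_co.Def

/-!
Geometric lemmas for polyhedral surfaces in Euclidean 3-space.
-/

namespace Pool.Agent.Lib.MP_9035cc_co


/-- If an affine functional is at most `c` on `S`, at least `c` on `T`, and bigger than `c` on
`T \ S`, then the convex hulls of `S` and `T` meet inside the convex hull of `S ∩ T`. -/
theorem hull_inter_subset {S T : Set E3} (f : E3 → ℝ)
    (hf : ∀ x y : E3, ∀ a b : ℝ, a + b = 1 → f (a • x + b • y) = a * f x + b * f y) (c : ℝ)
    (hS : ∀ x ∈ S, f x ≤ c) (hT : ∀ x ∈ T, c ≤ f x) (hTS : ∀ x ∈ T, x ∉ S → c < f x) :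
    convexHull ℝ S ∩ convexHull ℝ T ⊆ convexHull ℝ (S ∩ T) := by
  rintro x ⟨hxS, hxT⟩
  have h1 : f x ≤ c := by
    have : convexHull ℝ S ⊆ {x | f x ≤ c} := by
      apply convexHull_min hS
      intro x hx y hy a b ha hb hab
      change f x ≤ c at hx
      change f y ≤ c at hy
      change f (a • x + b • y) ≤ c
      rw [hf x y a b hab]
      have hc : c = a * c + b * c := by rw [← add_mul, hab, one_mul]
      rw [hc]
      exact add_le_add (mul_le_mul_of_nonneg_left hx ha) (mul_le_mul_of_nonneg_left hy hb)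
    exact this hxS
  have h2 : c < f x ∨ (c ≤ f x ∧ x ∈ convexHull ℝ (S ∩ T)) := by
    have : convexHull ℝ T ⊆ {x | c < f x ∨ (c ≤ f x ∧ x ∈ convexHull ℝ (S ∩ T))} := by
      apply convexHull_min
      · intro x hx
        by_cases hxS : x ∈ S
        · exact Or.inr ⟨hT x hx, subset_convexHull ℝ _ ⟨hxS, hx⟩⟩
        · exact Or.inl (hTS x hx hxS)
      · intro x hx y hy a b ha hb hab
        change c < f x ∨ (c ≤ f x ∧ x ∈ convexHull ℝ (S ∩ T)) at hx
        change c < f y ∨ (c ≤ f y ∧ y ∈ convexHull ℝ (S ∩ T)) at hy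
        change c < f (a • x + b • y) ∨
          (c ≤ f (a • x + b • y) ∧ a • x + b • y ∈ convexHull ℝ (S ∩ T))
        rw [hf x y a b hab]
        have hc : c = a * c + b * c := by rw [← add_mul, hab, one_mul]
        have hx' : c ≤ f x := hx.elim le_of_lt (fun h => h.1)
        have hy' : c ≤ f y := hy.elim le_of_lt (fun h => h.1)
        rcases ha.eq_or_lt with ha0 | ha0
        · have hb1 : b = 1 := by linarith
          rw [← ha0, hb1]
          simp only [zero_smul, one_smul, zero_add, zero_mul, one_mul]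
          exact hy
        rcases hb.eq_or_lt with hb0 | hb0
        · have ha1 : a = 1 := by linarith
          rw [← hb0, ha1]
          simp only [zero_smul, one_smul, add_zero, zero_mul, one_mul]
          exact hx
        rcases hx with hx | ⟨_, hx⟩
        · left
          have e1 : a * c < a * f x := mul_lt_mul_of_pos_left hx ha0
          have e2 : b * c ≤ b * f y := mul_le_mul_of_nonneg_left hy' hb
          linarith
        · rcases hy with hy | ⟨_, hy⟩
          · left
            have e1 : a * c ≤ a * f x := mul_le_mul_of_nonneg_left hx' ha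
            have e2 : b * c < b * f y := mul_lt_mul_of_pos_left hy hb0
            linarith
          · right
            refine ⟨?_, convex_convexHull ℝ _ hx hy ha hb hab⟩
            have e1 : a * c ≤ a * f x := mul_le_mul_of_nonneg_left hx' ha
            have e2 : b * c ≤ b * f y := mul_le_mul_of_nonneg_left hy' hb
            linarith
    exact this hxT
  rcases h2 with h2 | h2
  · exact absurd h1 (not_le.mpr h2)
  · exact h2.2

/-- The point with the given coordinates. -/
noncomputable def pt (x y z : ℝ) : E3 := !₂[x, y, z]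

@[simp] theorem pt_zero (x y z : ℝ) : pt x y z 0 = x := by simp [pt]
@[simp] theorem pt_one (x y z : ℝ) : pt x y z 1 = y := by simp [pt]
@[simp] theorem pt_two (x y z : ℝ) : pt x y z 2 = z := by simp [pt]

/-- The 3 by 3 determinant of the differences of four points. -/
def det4 (p a b c : E3) : ℝ :=
  (a 0 - p 0) * ((b 1 - p 1) * (c 2 - p 2) - (b 2 - p 2) * (c 1 - p 1))
  - (a 1 - p 1) * ((b 0 - p 0) * (c 2 - p 2) - (b 2 - p 2) * (c 0 - p 0))
  + (a 2 - p 2) * ((b 0 - p 0) * (c 1 - p 1) - (b 1 - p 1) * (c 0 - p 0))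

theorem affineIndependent_of_det4 {p a b c : E3} (h : det4 p a b c ≠ 0) :
    AffineIndependent ℝ ![p, a, b, c] := by
  rw [affineIndependent_iff_of_fintype]
  intro w hw hs
  rw [Finset.weightedVSub_eq_linear_combination _ hw] at hs
  have e : ∀ k : Fin 3, w 0 * p k + w 1 * a k + w 2 * b k + w 3 * c k = 0 := by
    intro k
    have := congrArg (fun v : E3 => v k) hs
    simp [Fin.sum_univ_succ] at this
    linarith
  have hw' : w 0 = - w 1 - w 2 - w 3 := by
    simp [Fin.sum_univ_succ] at hw
    linarith
  have e0 := e 0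
  have e1 := e 1
  have e2 := e 2
  rw [hw'] at e0 e1 e2
  have k1 : w 1 = 0 := by
    apply (mul_eq_zero.mp (?_ : w 1 * det4 p a b c = 0)).resolve_right h
    unfold det4
    linear_combination ((b 1 - p 1) * (c 2 - p 2) - (b 2 - p 2) * (c 1 - p 1)) * e0
      - ((b 0 - p 0) * (c 2 - p 2) - (b 2 - p 2) * (c 0 - p 0)) * e1
      + ((b 0 - p 0) * (c 1 - p 1) - (b 1 - p 1) * (c 0 - p 0)) * e2
  have k2 : w 2 = 0 := by
    apply (mul_eq_zero.mp (?_ : w 2 * det4 p a b c = 0)).resolve_right h
    unfold det4
    linear_combination - ((a 1 - p 1) * (c 2 - p 2) - (a 2 - p 2) * (c 1 - p 1)) * e0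
      + ((a 0 - p 0) * (c 2 - p 2) - (a 2 - p 2) * (c 0 - p 0)) * e1
      - ((a 0 - p 0) * (c 1 - p 1) - (a 1 - p 1) * (c 0 - p 0)) * e2
  have k3 : w 3 = 0 := by
    apply (mul_eq_zero.mp (?_ : w 3 * det4 p a b c = 0)).resolve_right h
    unfold det4
    linear_combination ((a 1 - p 1) * (b 2 - p 2) - (a 2 - p 2) * (b 1 - p 1)) * e0
      - ((a 0 - p 0) * (b 2 - p 2) - (a 2 - p 2) * (b 0 - p 0)) * e1
      + ((a 0 - p 0) * (b 1 - p 1) - (a 1 - p 1) * (b 0 - p 0)) * e2
  have k0 : w 0 = 0 := by rw [hw', k1, k2, k3]; ring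
  intro i
  fin_cases i
  · exact k0
  · exact k1
  · exact k2
  · exact k3

theorem not_coplanar_of_det4 {p a b c : E3} (h : det4 p a b c ≠ 0) :
    ¬ Coplanar ℝ ({p, a, b, c} : Set E3) := by
  have hi := affineIndependent_of_det4 h
  have h3 : Module.finrank ℝ (vectorSpan ℝ (Set.range ![p, a, b, c])) = 3 :=
    hi.finrank_vectorSpan (by simp)
  intro hc
  rw [coplanar_iff_finrank_le_two] at hc
  have hr : Set.range ![p, a, b, c] = ({p, a, b, c} : Set E3) := by
    simp only [Matrix.range_cons, Matrix.range_empty, Set.union_empty, Set.singleton_union]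
  rw [hr] at h3
  omega

theorem not_collinear_of_cross {p a b : E3} (j k : Fin 3)
    (h : (a j - p j) * (b k - p k) - (a k - p k) * (b j - p j) ≠ 0) :
    ¬ Collinear ℝ ({p, a, b} : Set E3) := by
  intro hc
  rw [collinear_iff_of_mem (p₀ := p) (by simp)] at hc
  obtain ⟨v, hv⟩ := hc
  obtain ⟨r, hr⟩ := hv a (by simp)
  obtain ⟨s, hs⟩ := hv b (by simp)
  apply h
  rw [hr, hs]
  simp
  ring

/-- Two triangles with a common edge whose four vertices are in general position meet exactly in
the common edge. -/
theorem hull_inter_adjacent {p a b c : E3} (h : det4 p a b c ≠ 0) :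
    convexHull ℝ ({p, a, b} : Set E3) ∩ convexHull ℝ ({p, b, c} : Set E3) ⊆
      convexHull ℝ ({p, a, b} ∩ {p, b, c} : Set E3) := by
  -- the functional is the determinant with the plane of `p, a, b`
  let m0 := (a 1 - p 1) * (b 2 - p 2) - (a 2 - p 2) * (b 1 - p 1)
  let m1 := (a 2 - p 2) * (b 0 - p 0) - (a 0 - p 0) * (b 2 - p 2)
  let m2 := (a 0 - p 0) * (b 1 - p 1) - (a 1 - p 1) * (b 0 - p 0)
  let f : E3 → ℝ := fun x => m0 * (x 0 - p 0) + m1 * (x 1 - p 1) + m2 * (x 2 - p 2)
  have hfd : ∀ x, f x = det4 p a b x := by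
    intro x
    simp only [f, m0, m1, m2, det4]
    ring
  have hf : ∀ x y : E3, ∀ u v : ℝ, u + v = 1 → f (u • x + v • y) = u * f x + v * f y := by
    intro x y u v huv
    simp only [f, PiLp.add_apply, PiLp.smul_apply, smul_eq_mul]
    have : u = 1 - v := by linarith
    subst this
    ring
  have fp : f p = 0 := by simp [f]
  have fa : f a = 0 := by simp only [f, m0, m1, m2]; ring
  have fb : f b = 0 := by simp only [f, m0, m1, m2]; ring
  have fc : f c ≠ 0 := by rw [hfd]; exact h
  rcases lt_or_gt_of_ne fc with hc | hc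
  · apply hull_inter_subset (fun x => - f x) (fun x y u v huv => by rw [hf x y u v huv]; ring) 0
    · intro x hx
      simp only [Set.mem_insert_iff, Set.mem_singleton_iff] at hx
      rcases hx with rfl | rfl | rfl <;> simp [fp, fa, fb]
    · intro x hx
      simp only [Set.mem_insert_iff, Set.mem_singleton_iff] at hx
      rcases hx with rfl | rfl | rfl <;> simp [fp, fb, hc.le]
    · intro x hx hx'
      simp only [Set.mem_insert_iff, Set.mem_singleton_iff, not_or] at hx hx'
      rcases hx with rfl | rfl | rfl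
      · exact absurd rfl hx'.1
      · exact absurd rfl hx'.2.2
      · simpa using hc
  · apply hull_inter_subset f hf 0
    · intro x hx
      simp only [Set.mem_insert_iff, Set.mem_singleton_iff] at hx
      rcases hx with rfl | rfl | rfl <;> simp [fp, fa, fb]
    · intro x hx
      simp only [Set.mem_insert_iff, Set.mem_singleton_iff] at hx
      rcases hx with rfl | rfl | rfl <;> simp [fp, fb, hc.le]
    · intro x hx hx'
      simp only [Set.mem_insert_iff, Set.mem_singleton_iff, not_or] at hx hx'
      rcases hx with rfl | rfl | rfl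
      · exact absurd rfl hx'.1
      · exact absurd rfl hx'.2.2
      · exact hc

end Pool.Agent.Lib.MP_9035cc_co
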