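import Mathlib
import Pool.Agent.Lib.MP_9035cc_co.Def
import Pool.Agent.Lib.MP_9035cc_co.Geom

/-!
From a rotation system with geometric certificates to an equivelar manifold.
-/

namespace Pool.Agent.Lib.MP_9035cc_co

open Finset

section

variable {n q : ℕ} (c : Fin n → ZMod q → Fin n)

/-- The triangle number `i` at the vertex `v`. -/
def tri (v : Fin n) (i : ZMod q) : Finset (Fin n) := {v, c v i, c v (i + 1)}

variable {c}

theorem mem_tri {v x : Fin n} {i : ZMod q} : x ∈ tri c v i ↔ x = v ∨ x = c v i ∨ x = c v (i + 1) := by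
  simp [tri]

theorem coe_tri {v : Fin n} {i : ZMod q} :
    ((tri c v i : Finset (Fin n)) : Set (Fin n)) = {v, c v i, c v (i + 1)} := by
  simp [tri]

theorem one_ne_zero' (hq : 3 ≤ q) : (1 : ZMod q) ≠ 0 := by
  have : Fact (1 < q) := ⟨by omega⟩
  exact one_ne_zero

theorem two_ne_zero' (hq : 3 ≤ q) : (2 : ZMod q) ≠ 0 := by
  intro h
  have : ((2 : ℕ) : ZMod q) = 0 := by exact_mod_cast h
  rw [ZMod.natCast_eq_zero_iff] at this
  have := Nat.le_of_dvd (by norm_num) this
  omega

/-- The rotation closure property. -/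
def Rot (c : Fin n → ZMod q → Fin n) : Prop :=
  ∀ v i, ∃ j, c (c v i) j = c v (i + 1) ∧ c (c v i) (j + 1) = v

theorem tri_eq_of_mem (hrot : Rot c) {v w : Fin n} {j : ZMod q} (h : v ∈ tri c w j) :
    ∃ i, tri c w j = tri c v i := by
  rcases mem_tri.mp h with rfl | rfl | rfl
  · exact ⟨j, rfl⟩
  · obtain ⟨k, h1, h2⟩ := hrot w j
    refine ⟨k, ?_⟩
    ext x
    rw [mem_tri, mem_tri, h1, h2]
    tauto
  · obtain ⟨k, h1, h2⟩ := hrot w j
    obtain ⟨l, h3, h4⟩ := hrot (c w j) k
    rw [h1] at h3 h4
    rw [h2] at h3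
    refine ⟨l, ?_⟩
    ext x
    rw [mem_tri, mem_tri, h3, h4]
    tauto

theorem card_tri (hq : 3 ≤ q) (hne : ∀ v i, c v i ≠ v) (hinj : ∀ v, Function.Injective (c v))
    (v : Fin n) (i : ZMod q) : (tri c v i).card = 3 := by
  unfold tri
  rw [Finset.card_eq_three]
  refine ⟨v, c v i, c v (i + 1), (hne v i).symm, (hne v (i + 1)).symm, ?_, rfl⟩
  intro h
  have h1 := hinj v h
  have h2 : (1 : ZMod q) = 0 := by
    have : i + 1 = i + 0 := by rw [add_zero]; exact h1.symm
    exact add_left_cancel this
  exact one_ne_zero' hq h2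

theorem tri_injective (hq : 3 ≤ q) (hne : ∀ v i, c v i ≠ v) (hinj : ∀ v, Function.Injective (c v))
    (v : Fin n) : Function.Injective (tri c v) := by
  intro i j h
  have h1 : c v i ∈ tri c v j := by rw [← h, mem_tri]; tauto
  have h2 : c v (i + 1) ∈ tri c v j := by rw [← h, mem_tri]; tauto
  rw [mem_tri] at h1 h2
  have h1' : i = j ∨ i = j + 1 := by
    rcases h1 with h1 | h1 | h1
    · exact absurd h1 (hne v i)
    · exact Or.inl (hinj v h1)
    · exact Or.inr (hinj v h1)
  have h2' : i + 1 = j ∨ i + 1 = j + 1 := by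
    rcases h2 with h2 | h2 | h2
    · exact absurd h2 (hne v (i + 1))
    · exact Or.inl (hinj v h2)
    · exact Or.inr (hinj v h2)
  rcases h1' with h1' | h1'
  · exact h1'
  · rcases h2' with h2' | h2'
    · exfalso
      apply two_ne_zero' hq
      have : j + 2 = j + 0 := by rw [add_zero, ← one_add_one_eq_two, ← add_assoc, ← h1', h2']
      exact add_left_cancel this
    · exact add_right_cancel h2'

variable [NeZero q]

variable (c) in
/-- The faces of the rotation system. -/
def facesOf : Finset (Finset (Fin n)) :=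
  Finset.univ.image fun p : Fin n × ZMod q => tri c p.1 p.2

theorem mem_facesOf {F : Finset (Fin n)} : F ∈ facesOf c ↔ ∃ v i, F = tri c v i := by
  simp [facesOf, eq_comm]

theorem link_iff (hrot : Rot c) (v : Fin n) (F : Finset (Fin n)) :
    (F ∈ facesOf c ∧ v ∈ F) ↔ ∃ i, F = tri c v i := by
  constructor
  · rintro ⟨hF, hv⟩
    obtain ⟨w, j, rfl⟩ := mem_facesOf.mp hF
    exact tri_eq_of_mem hrot hv
  · rintro ⟨i, rfl⟩
    exact ⟨mem_facesOf.mpr ⟨v, i, rfl⟩, mem_tri.mpr (Or.inl rfl)⟩

theorem mem_edges_facesOf (hne : ∀ v i, c v i ≠ v) (hrot : Rot c) (v w : Fin n) :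
    ({v, w} : Finset (Fin n)) ∈ edges (facesOf c) ↔ ∃ i, w = c v i := by
  unfold edges
  rw [Finset.mem_biUnion]
  constructor
  · rintro ⟨F, hF, hvw⟩
    rw [Finset.mem_powersetCard] at hvw
    obtain ⟨hs, hcard⟩ := hvw
    have hvw : v ≠ w := by
      rintro rfl
      simp at hcard
    have hv : v ∈ F := hs (by simp)
    have hw : w ∈ F := hs (by simp)
    obtain ⟨i, rfl⟩ := (link_iff hrot v F).mp ⟨hF, hv⟩
    rcases mem_tri.mp hw with h | h | h
    · exact absurd h.symm hvw
    · exact ⟨i, h⟩
    · exact ⟨i + 1, h⟩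
  · rintro ⟨i, rfl⟩
    refine ⟨tri c v i, mem_facesOf.mpr ⟨v, i, rfl⟩, ?_⟩
    rw [Finset.mem_powersetCard]
    constructor
    · intro x hx
      rw [mem_tri]
      simp at hx
      tauto
    · rw [Finset.card_pair (hne v i).symm]

theorem three_mul_card_facesOf (hq : 3 ≤ q) (hne : ∀ v i, c v i ≠ v)
    (hinj : ∀ v, Function.Injective (c v)) (hrot : Rot c) :
    n * q = (facesOf c).card * 3 := by
  have h := Finset.card_mul_eq_card_mul (s := (Finset.univ : Finset (Fin n))) (t := facesOf c)
    (fun v F => v ∈ F) (m := q) (n := 3) ?_ ?_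
  · simpa using h
  · intro v _
    have : (facesOf c).bipartiteAbove (fun v F => v ∈ F) v = Finset.univ.image (tri c v) := by
      ext F
      rw [Finset.mem_bipartiteAbove, link_iff hrot v F]
      simp [eq_comm]
    rw [this, Finset.card_image_of_injective _ (tri_injective hq hne hinj v)]
    simp [ZMod.card]
  · intro F hF
    obtain ⟨w, j, rfl⟩ := mem_facesOf.mp hF
    have : (Finset.univ : Finset (Fin n)).bipartiteBelow (fun v F => v ∈ F) (tri c w j) =
        tri c w j := by
      ext x
      simp [Finset.mem_bipartiteBelow]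
    rw [this, card_tri hq hne hinj]

theorem degree_eq (hne : ∀ v i, c v i ≠ v)
    (hinj : ∀ v, Function.Injective (c v)) (hrot : Rot c) (v : Fin n) :
    ((edges (facesOf c)).filter fun e => v ∈ e).card = q := by
  have : (edges (facesOf c)).filter (fun e => v ∈ e) =
      Finset.univ.image (fun i => ({v, c v i} : Finset (Fin n))) := by
    ext e
    rw [Finset.mem_filter, Finset.mem_image]
    constructor
    · rintro ⟨he, hv⟩
      have hcard : e.card = 2 := by
        unfold edges at he
        rw [Finset.mem_biUnion] at he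
        obtain ⟨F, _, hF⟩ := he
        exact (Finset.mem_powersetCard.mp hF).2
      obtain ⟨a, b, hab, rfl⟩ := Finset.card_eq_two.mp hcard
      simp only [Finset.mem_insert, Finset.mem_singleton] at hv
      rcases hv with rfl | rfl
      · obtain ⟨i, rfl⟩ := (mem_edges_facesOf hne hrot _ _).mp he
        exact ⟨i, Finset.mem_univ _, rfl⟩
      · rw [Finset.pair_comm] at he
        obtain ⟨i, rfl⟩ := (mem_edges_facesOf hne hrot _ _).mp he
        exact ⟨i, Finset.mem_univ _, Finset.pair_comm _ _⟩
    · rintro ⟨i, _, rfl⟩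
      exact ⟨(mem_edges_facesOf hne hrot _ _).mpr ⟨i, rfl⟩, by simp⟩
  rw [this, Finset.card_image_of_injective]
  · simp [ZMod.card]
  · intro i j hij
    have h1 : c v i ∈ ({v, c v j} : Finset (Fin n)) := by
      have : c v i ∈ ({v, c v i} : Finset (Fin n)) := by simp
      rwa [show ({v, c v i} : Finset (Fin n)) = {v, c v j} from hij] at this
    simp only [Finset.mem_insert, Finset.mem_singleton] at h1
    rcases h1 with h1 | h1
    · exact absurd h1 (hne v i)
    · exact hinj v h1

theorem two_mul_card_edges (hne : ∀ v i, c v i ≠ v)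
    (hinj : ∀ v, Function.Injective (c v)) (hrot : Rot c) :
    n * q = (edges (facesOf c)).card * 2 := by
  have h := Finset.card_mul_eq_card_mul (s := (Finset.univ : Finset (Fin n)))
    (t := edges (facesOf c)) (fun v e => v ∈ e) (m := q) (n := 2) ?_ ?_
  · simpa using h
  · intro v _
    exact degree_eq hne hinj hrot v
  · intro e he
    have hcard : e.card = 2 := by
      unfold edges at he
      rw [Finset.mem_biUnion] at he
      obtain ⟨F, _, hF⟩ := he
      exact (Finset.mem_powersetCard.mp hF).2
    have : (Finset.univ : Finset (Fin n)).bipartiteBelow (fun v e => v ∈ e) e = e := by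
      ext x
      simp [Finset.mem_bipartiteBelow]
    rw [this, hcard]

omit [NeZero q] in
/-- The image of a triangle. -/
theorem image_tri (pos : Fin n → E3) (v : Fin n) (i : ZMod q) :
    pos '' ((tri c v i : Finset (Fin n)) : Set (Fin n)) = {pos v, pos (c v i), pos (c v (i + 1))} := by
  rw [coe_tri, Set.image_insert_eq, Set.image_insert_eq, Set.image_singleton]

/-- Main assembly theorem. -/
theorem isEquivelarTri_of {g : ℕ} (hq : 3 ≤ q) (pos : Fin n → E3)
    (hne : ∀ v i, c v i ≠ v) (hinj : ∀ v, Function.Injective (c v)) (hrot : Rot c)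
    (hpos : Function.Injective pos)
    (hconn : ∀ v : Fin n, 0 < v.val → ∃ i, c v i < v)
    (hdet : ∀ v i, det4 (pos v) (pos (c v i)) (pos (c v (i + 1))) (pos (c v (i + 1 + 1))) ≠ 0)
    (hcol : ∀ v i j, i ≠ j → ¬ Collinear ℝ ({pos v, pos (c v i), pos (c v j)} : Set E3))
    (hstar : ∀ v i j, i ≠ j → j ≠ i + 1 → i ≠ j + 1 →
      convexHull ℝ (pos '' (tri c v i : Set (Fin n))) ∩
        convexHull ℝ (pos '' (tri c v j : Set (Fin n))) ⊆
      convexHull ℝ (pos '' (tri c v i : Set (Fin n)) ∩ pos '' (tri c v j : Set (Fin n))))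
    (hfar : ∀ v i w j, Disjoint (tri c v i) (tri c w j) →
      convexHull ℝ (pos '' (tri c v i : Set (Fin n))) ∩
        convexHull ℝ (pos '' (tri c w j : Set (Fin n))) ⊆
      convexHull ℝ (pos '' (tri c v i : Set (Fin n)) ∩ pos '' (tri c w j : Set (Fin n))))
    (hg : 12 * g + 6 * n = n * q + 12) :
    IsEquivelarTri n q g pos (facesOf c) where
  three_le := hq
  pos_injective := hpos
  card_face := by
    intro F hF
    obtain ⟨v, i, rfl⟩ := mem_facesOf.mp hF
    exact card_tri hq hne hinj v i
  inter := by
    intro F hF G hG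
    have key : convexHull ℝ (pos '' (F : Set (Fin n))) ∩ convexHull ℝ (pos '' (G : Set (Fin n))) ⊆
        convexHull ℝ (pos '' (F : Set (Fin n)) ∩ pos '' (G : Set (Fin n))) := by
      by_cases hd : Disjoint F G
      · obtain ⟨v, i, rfl⟩ := mem_facesOf.mp hF
        obtain ⟨w, j, rfl⟩ := mem_facesOf.mp hG
        exact hfar v i w j hd
      · rw [Finset.not_disjoint_iff] at hd
        obtain ⟨v, hvF, hvG⟩ := hd
        obtain ⟨i, rfl⟩ := (link_iff hrot v F).mp ⟨hF, hvF⟩
        obtain ⟨j, rfl⟩ := (link_iff hrot v G).mp ⟨hG, hvG⟩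
        by_cases hij : i = j
        · subst hij
          rw [Set.inter_self, Set.inter_self]
        by_cases hij1 : j = i + 1
        · subst hij1
          rw [image_tri, image_tri]
          exact hull_inter_adjacent (hdet v i)
        by_cases hji1 : i = j + 1
        · subst hji1
          rw [image_tri, image_tri, Set.inter_comm, Set.inter_comm ({pos v, _, _} : Set E3)]
          exact hull_inter_adjacent (hdet v j)
        exact hstar v i j hij hij1 hji1
    apply Set.Subset.antisymm
    · refine key.trans (convexHull_mono ?_)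
      rw [← Set.image_inter hpos, ← Finset.coe_inter]
    · apply Set.subset_inter
      · exact convexHull_mono (Set.image_mono (by exact_mod_cast Finset.inter_subset_left))
      · exact convexHull_mono (Set.image_mono (by exact_mod_cast Finset.inter_subset_right))
  link := by
    intro v
    exact ⟨c v, hinj v, hne v, fun F => link_iff hrot v F⟩
  degree := fun v => degree_eq hne hinj hrot v
  connected := by
    have hstep : ∀ v i, Relation.ReflTransGen
        (fun a b : Fin n => ({a, b} : Finset (Fin n)) ∈ edges (facesOf c)) v (c v i) := by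
      intro v i
      exact Relation.ReflTransGen.single ((mem_edges_facesOf hne hrot _ _).mpr ⟨i, rfl⟩)
    have hstep' : ∀ v i, Relation.ReflTransGen
        (fun a b : Fin n => ({a, b} : Finset (Fin n)) ∈ edges (facesOf c)) (c v i) v := by
      intro v i
      refine Relation.ReflTransGen.single ?_
      have := (mem_edges_facesOf hne hrot v (c v i)).mpr ⟨i, rfl⟩
      rwa [Finset.pair_comm] at this
    have hzero : ∀ k : ℕ, ∀ v : Fin n, v.val = k → ∀ z : Fin n, z.val = 0 →
        Relation.ReflTransGen
        (fun a b : Fin n => ({a, b} : Finset (Fin n)) ∈ edges (facesOf c)) v z ∧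
        Relation.ReflTransGen
        (fun a b : Fin n => ({a, b} : Finset (Fin n)) ∈ edges (facesOf c)) z v := by
      intro k
      induction k using Nat.strong_induction_on with
      | _ k ih =>
        intro v hv z hz
        rcases Nat.eq_zero_or_pos k with hk | hk
        · have : v = z := by
            apply Fin.ext
            omega
          rw [this]
          exact ⟨Relation.ReflTransGen.refl, Relation.ReflTransGen.refl⟩
        · obtain ⟨i, hi⟩ := hconn v (by omega)
          have hi' : (c v i).val < k := by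
            rw [← hv]
            exact hi
          have h1 := ih (c v i).val hi' (c v i) rfl z hz
          exact ⟨(hstep v i).trans h1.1, h1.2.trans (hstep' v i)⟩
    intro u v
    have hn : 0 < n := lt_of_le_of_lt (Nat.zero_le _) u.isLt
    exact (hzero u.val u rfl ⟨0, hn⟩ rfl).1.trans (hzero v.val v rfl ⟨0, hn⟩ rfl).2
  not_coplanar := by
    intro F hF G hG hcard
    have hne0 : (F ∩ G).Nonempty := by
      rw [← Finset.card_pos]
      omega
    obtain ⟨v, hv⟩ := hne0
    rw [Finset.mem_inter] at hv
    obtain ⟨i, rfl⟩ := (link_iff hrot v F).mp ⟨hF, hv.1⟩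
    obtain ⟨j, rfl⟩ := (link_iff hrot v G).mp ⟨hG, hv.2⟩
    have main : ∀ k, ¬ Coplanar ℝ
        (pos '' ((tri c v k ∪ tri c v (k + 1) : Finset (Fin n)) : Set (Fin n))) := by
      intro k
      have : pos '' ((tri c v k ∪ tri c v (k + 1) : Finset (Fin n)) : Set (Fin n)) =
          {pos v, pos (c v k), pos (c v (k + 1)), pos (c v (k + 1 + 1))} := by
        rw [Finset.coe_union, Set.image_union, image_tri, image_tri]
        ext x
        simp only [Set.mem_union, Set.mem_insert_iff, Set.mem_singleton_iff]
        tauto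
      rw [this]
      exact not_coplanar_of_det4 (hdet v k)
    by_cases hij1 : j = i + 1
    · subst hij1
      exact main i
    by_cases hji1 : i = j + 1
    · subst hji1
      rw [Finset.union_comm]
      exact main j
    exfalso
    by_cases hij : i = j
    · subst hij
      rw [Finset.inter_self, card_tri hq hne hinj] at hcard
      omega
    have hsub : tri c v i ∩ tri c v j ⊆ {v} := by
      intro x hx
      rw [Finset.mem_inter, mem_tri, mem_tri] at hx
      rw [Finset.mem_singleton]
      obtain ⟨h1, h2⟩ := hx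
      rcases h1 with h1 | h1 | h1
      · exact h1
      · rcases h2 with h2 | h2 | h2
        · exact h2
        · exact absurd (hinj v (h1.symm.trans h2)) hij
        · exact absurd (hinj v (h1.symm.trans h2)) hji1
      · rcases h2 with h2 | h2 | h2
        · exact h2
        · exact absurd (hinj v (h1.symm.trans h2)).symm hij1
        · exact absurd (add_right_cancel (hinj v (h1.symm.trans h2))) hij
    have := Finset.card_le_card hsub
    rw [hcard, Finset.card_singleton] at this
    omega
  not_collinear := by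
    intro u v w huw huv hvw
    rw [Finset.pair_comm] at huv
    obtain ⟨i, rfl⟩ := (mem_edges_facesOf hne hrot _ _).mp huv
    obtain ⟨j, rfl⟩ := (mem_edges_facesOf hne hrot _ _).mp hvw
    have hij : i ≠ j := by
      rintro rfl
      exact huw rfl
    have h := hcol v i j hij
    rwa [Set.insert_comm] at h
  orientable := by
    refine ⟨fun a b d => ∃ i, c a i = b ∧ c a (i + 1) = d, ?_, ?_, ?_⟩
    · rintro a b d ⟨i, rfl, rfl⟩
      obtain ⟨j, h1, h2⟩ := hrot a i
      exact ⟨j, h1, h2⟩
    · intro F
      rw [mem_facesOf]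
      constructor
      · rintro ⟨v, i, rfl⟩
        exact ⟨v, c v i, c v (i + 1), ⟨i, rfl, rfl⟩, rfl⟩
      · rintro ⟨a, b, d, ⟨i, rfl, rfl⟩, rfl⟩
        exact ⟨a, i, rfl⟩
    · rintro a b d d' ⟨i, rfl, rfl⟩ ⟨j, hj, rfl⟩
      rw [hinj a hj]
  euler := by
    have h1 := three_mul_card_facesOf hq hne hinj hrot
    have h2 := two_mul_card_edges hne hinj hrot
    have h1' : (n : ℤ) * q = ((facesOf c).card : ℤ) * 3 := by exact_mod_cast h1
    have h2' : (n : ℤ) * q = ((edges (facesOf c)).card : ℤ) * 2 := by exact_mod_cast h2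
    have hg' : 12 * (g : ℤ) + 6 * n = n * q + 12 := by exact_mod_cast hg
    linarith

end

end Pool.Agent.Lib.MP_9035cc_co
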