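import Mathlib.Data.Int.Notation
import Pool.Agent.Lib.MP_9035cc_co.Data

/-!
Boolean checks of the certificate data, evaluated by the kernel.
-/

namespace Pool.Agent.Lib.MP_9035cc_co

/-- `f 0 && f 1 && ... && f (m-1)`. -/
noncomputable def allLT (m : ℕ) (f : ℕ → Bool) : Bool :=
  Nat.rec (motive := fun _ => Bool) true (fun k ih => Bool.rec false ih (f k)) m

theorem allLT_spec {m : ℕ} {f : ℕ → Bool} (h : allLT m f = true) : ∀ k, k < m → f k = true := by
  induction m with
  | zero => intro k hk; exact absurd hk (Nat.not_lt_zero k)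
  | succ m ih =>
    have h' : (Bool.rec false (allLT m f) (f m) : Bool) = true := h
    cases hf : f m with
    | false =>
      rw [hf] at h'
      exact absurd (show (false : Bool) = true from h') (by decide)
    | true =>
      rw [hf] at h'
      have h'' : allLT m f = true := h'
      intro k hk
      rcases Nat.lt_or_ge k m with h1 | h1
      · exact ih h'' k h1
      · have : k = m := Nat.le_antisymm (Nat.le_of_lt_succ hk) h1
        rw [this]
        exact hf

/-- x-coordinate. -/
def cx (v : ℕ) : ℕ := look tX wC v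
/-- y-coordinate. -/
def cy (v : ℕ) : ℕ := look tY wC v
/-- z-coordinate. -/
def cz (v : ℕ) : ℕ := look tZ wC v
/-- The complementary coordinate. -/
def cw (v : ℕ) : ℕ := Nat.sub MM (Nat.add (Nat.add (cx v) (cy v)) (cz v))

/-- Neighbour number `i` of `v` in the rotation system. -/
def nb (v i : ℕ) : ℕ := Nat.mod (look tRot wN (Nat.add (Nat.mul 18 v) i)) nV

/-- Cyclic successor modulo 18. -/
def sx (i : ℕ) : ℕ := Nat.mod (Nat.add i 1) 18

/-- Position of the next neighbour in the rotation at the neighbour. -/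
def inv (v i : ℕ) : ℕ := Nat.mod (look tInv 5 (Nat.add (Nat.mul 18 v) i)) 18

/-- Position of a smaller neighbour. -/
def par (v : ℕ) : ℕ := Nat.mod (look tPar 5 v) 18

/-- Rotation system check. -/
def okRot (v i : ℕ) : Bool :=
  (Nat.beq (nb (nb v i) (inv v i)) (nb v (sx i)) && Nat.beq (nb (nb v i) (sx (inv v i))) v)
    && !(Nat.beq (nb v i) v)

/-- Injectivity check. -/
def okInj (v i j : ℕ) : Bool := !(Nat.beq (nb v i) (nb v j))

/-- Connectivity check. -/
def okConn (v : ℕ) : Bool := Nat.beq v 0 || Nat.ble (Nat.add (nb v (par v)) 1) v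

/-- Sum of coordinates check. -/
def okSum (v : ℕ) : Bool := Nat.ble (Nat.add (Nat.add (cx v) (cy v)) (cz v)) MM

/-- Distinct points check. -/
def okPos (v w : ℕ) : Bool :=
  !((Nat.beq (cx v) (cx w) && Nat.beq (cy v) (cy w)) && Nat.beq (cz v) (cz w))

/-- The determinant of three differences, with integer coordinates. -/
def detZ (p a b c : ℕ) : ℤ :=
  ((cx a : ℤ) - cx p) * (((cy b : ℤ) - cy p) * ((cz c : ℤ) - cz p)
      - ((cz b : ℤ) - cz p) * ((cy c : ℤ) - cy p))
  - ((cy a : ℤ) - cy p) * (((cx b : ℤ) - cx p) * ((cz c : ℤ) - cz p)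
      - ((cz b : ℤ) - cz p) * ((cx c : ℤ) - cx p))
  + ((cz a : ℤ) - cz p) * (((cx b : ℤ) - cx p) * ((cy c : ℤ) - cy p)
      - ((cy b : ℤ) - cy p) * ((cx c : ℤ) - cx p))

/-- Adjacent faces are not coplanar. -/
def okDet (v i : ℕ) : Bool := !(decide (detZ v (nb v i) (nb v (sx i)) (nb v (sx (sx i))) = 0))

/-- A component of the cross product of `a - p` and `b - p` is nonzero. -/
def okCr (f g : ℕ → ℕ) (p a b : ℕ) : Bool :=
  !(Nat.beq
    (Nat.add (Nat.add (Nat.mul (f a) (g b)) (Nat.mul (g a) (f p))) (Nat.mul (g p) (f b)))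
    (Nat.add (Nat.add (Nat.mul (g a) (f b)) (Nat.mul (f a) (g p))) (Nat.mul (f p) (g b))))

/-- The cross product of `a - p` and `b - p` is nonzero. -/
def okCross (p a b : ℕ) : Bool := okCr cy cz p a b || (okCr cz cx p a b || okCr cx cy p a b)

/-- Value at the vertex `v` of the affine functional with the given coefficients. -/
def ev (A B C E v : ℕ) : ℕ :=
  Nat.add (Nat.add (Nat.add (Nat.mul A (cx v)) (Nat.mul B (cy v))) (Nat.mul C (cz v)))
    (Nat.mul E (cw v))

/-- Global functional `k` at the vertex `v`. -/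
def gev (k v : ℕ) : ℕ := ev (look tPA wPA k) (look tPB wPB k) (look tPC wPC k) (look tPE wPE k) v

/-- Threshold of the global functional `k`. -/
def gD (k : ℕ) : ℕ := look tPD wPD k

/-- Mask of the vertex `v` for the global functionals. -/
def pm (v : ℕ) : ℕ := look tPM nP v

/-- Equality of booleans. -/
def beqB (a b : Bool) : Bool := (a && b) || (!a && !b)

/-- The mask of `v` has the right bit `k`. -/
def okG (k v : ℕ) : Bool := beqB (Nat.ble (gev k v) (gD k)) (!(Nat.testBit (pm v) k))

/-- All ones. -/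
def onesP : ℕ := Nat.sub (Nat.pow 2 nP) 1

/-- Vertices of face `t`. -/
def fa (t : ℕ) : ℕ := Nat.mod (look tTA wN t) nV
/-- Vertices of face `t`. -/
def fb (t : ℕ) : ℕ := Nat.mod (look tTB wN t) nV
/-- Vertices of face `t`. -/
def fc (t : ℕ) : ℕ := Nat.mod (look tTC wN t) nV

/-- Mask of the functionals positive on the face `t`. -/
def fP (t : ℕ) : ℕ := Nat.land (Nat.land (pm (fa t)) (pm (fb t))) (pm (fc t))
/-- Mask of the functionals nonpositive on the face `t`. -/
def fN (t : ℕ) : ℕ := Nat.xor onesP (Nat.lor (Nat.lor (pm (fa t)) (pm (fb t))) (pm (fc t)))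

/-- The vertex `x` is on the face `t`. -/
def onF (x t : ℕ) : Bool := (Nat.beq x (fa t) || Nat.beq x (fb t)) || Nat.beq x (fc t)

/-- Two faces are separated or share a vertex. -/
noncomputable def okPair (s t : ℕ) : Bool :=
  Bool.rec true
    (Bool.rec true ((onF (fa s) t || onF (fb s) t) || onF (fc s) t)
      (Nat.beq (Nat.land (fN s) (fP t)) 0))
    (Nat.beq (Nat.land (fP s) (fN t)) 0)

/-- Number of the face at the vertex `v` in position `i`. -/
def ti (v i : ℕ) : ℕ := Nat.mod (look tTI wF (Nat.add (Nat.mul 18 v) i)) nF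

/-- The face number is right. -/
def okTI (v i : ℕ) : Bool :=
  ((Nat.beq (fa (ti v i)) v && Nat.beq (fb (ti v i)) (nb v i)) && Nat.beq (fc (ti v i)) (nb v (sx i)))
  || (((Nat.beq (fa (ti v i)) (nb v i) && Nat.beq (fb (ti v i)) (nb v (sx i))) &&
      Nat.beq (fc (ti v i)) v)
  || ((Nat.beq (fa (ti v i)) (nb v (sx i)) && Nat.beq (fb (ti v i)) v) &&
      Nat.beq (fc (ti v i)) (nb v i)))

/-- Local functional `k` at `v`, evaluated at the vertex `u`. -/
def lev (v k u : ℕ) : ℕ :=
  ev (look tLA wLA (Nat.add (Nat.mul nL v) k)) (look tLB wLB (Nat.add (Nat.mul nL v) k))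
    (look tLC wLC (Nat.add (Nat.mul nL v) k)) (look tLE wLE (Nat.add (Nat.mul nL v) k)) u

/-- Mask of the neighbour `i` for the local functionals at `v`. -/
def lm (v i : ℕ) : ℕ := look tLM nL (Nat.add (Nat.mul 18 v) i)

/-- The local mask has the right bit `k`. -/
def okL (v i k : ℕ) : Bool :=
  beqB (Nat.ble (lev v k (nb v i)) (lev v k v)) (!(Nat.testBit (lm v i) k))

/-- All ones. -/
def onesL : ℕ := Nat.sub (Nat.pow 2 nL) 1

/-- Mask of the local functionals positive on the edge `i` of the link. -/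
def lP (v i : ℕ) : ℕ := Nat.land (lm v i) (lm v (sx i))
/-- Mask of the local functionals nonpositive on the edge `i` of the link. -/
def lN (v i : ℕ) : ℕ := Nat.xor onesL (Nat.lor (lm v i) (lm v (sx i)))

/-- Two faces at `v` are adjacent or separated. -/
def okStar (v i j : ℕ) : Bool :=
  (Nat.beq i (sx j) || Nat.beq j (sx i)) ||
  (!(Nat.beq (Nat.land (lP v i) (lN v j)) 0) || !(Nat.beq (Nat.land (lN v i) (lP v j)) 0))

/-- All checks at one vertex. -/
noncomputable def okVertex (v : ℕ) : Bool :=
  ((okConn v && okSum v) && allLT v (okPos v)) &&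
  allLT 18 (fun i => ((okRot v i && okDet v i) && okTI v i) &&
    (allLT nL (okL v i) && allLT i (fun j => (okInj v i j && okCross v (nb v i) (nb v j)) &&
      okStar v i j)))

end Pool.Agent.Lib.MP_9035cc_co
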