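import Pool.Agent.Lib.MP_9035cc_co.Chk

/-!
The kernel evaluates the checks.
-/

namespace Pool.Agent.Lib.MP_9035cc_co

theorem chkVertex : allLT nV okVertex = true := by decide +kernel

theorem chkG : allLT nP (fun k => allLT nV (okG k)) = true := by decide +kernel

theorem chkPair : allLT nF (fun s => allLT s (okPair s)) = true := by decide +kernel

end Pool.Agent.Lib.MP_9035cc_co
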