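import Mathlib
import Pool.Agent.Lib.MP_9035cc_co.Abs
import Pool.Agent.Lib.MP_9035cc_co.Run

/-!
Soundness of the checks.
-/

namespace Pool.Agent.Lib.MP_9035cc_co

theorem nV_pos : 0 < nV := by decide
theorem nF_pos : 0 < nF := by decide

theorem beq_true {a b : ℕ} (h : Nat.beq a b = true) : a = b := Nat.eq_of_beq_eq_true h

theorem ne_of_not_beq {a b : ℕ} (h : (!(Nat.beq a b)) = true) : a ≠ b := by
  rintro rfl
  rw [Nat.beq_refl] at h
  exact absurd h (by decide)

theorem beqB_true {a b : Bool} (h : beqB a b = true) : a = b := by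
  cases a <;> cases b <;> first | rfl | exact absurd h (by decide)

/-- The unpacked checks at a vertex. -/
theorem vertex_facts (v : ℕ) (hv : v < nV) :
    okConn v = true ∧ okSum v = true ∧ (∀ w, w < v → okPos v w = true) ∧
    ∀ i, i < 18 → okRot v i = true ∧ okDet v i = true ∧ okTI v i = true ∧
      (∀ k, k < nL → okL v i k = true) ∧
      ∀ j, j < i → okInj v i j = true ∧ okCross v (nb v i) (nb v j) = true ∧
        okStar v i j = true := by
  have h := allLT_spec chkVertex v hv
  unfold okVertex at h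
  rw [Bool.and_eq_true, Bool.and_eq_true, Bool.and_eq_true] at h
  obtain ⟨⟨⟨h1, h2⟩, h3⟩, h4⟩ := h
  refine ⟨h1, h2, allLT_spec h3, ?_⟩
  intro i hi
  have h5 := allLT_spec h4 i hi
  rw [Bool.and_eq_true, Bool.and_eq_true, Bool.and_eq_true, Bool.and_eq_true] at h5
  obtain ⟨⟨⟨h6, h7⟩, h8⟩, h9, h10⟩ := h5
  refine ⟨h6, h7, h8, allLT_spec h9, ?_⟩
  intro j hj
  have h11 := allLT_spec h10 j hj
  rw [Bool.and_eq_true, Bool.and_eq_true] at h11
  exact ⟨h11.1.1, h11.1.2, h11.2⟩

theorem nb_lt (v i : ℕ) : nb v i < nV := Nat.mod_lt _ nV_pos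
theorem inv_lt (v i : ℕ) : inv v i < 18 := Nat.mod_lt _ (by decide)
theorem par_lt (v : ℕ) : par v < 18 := Nat.mod_lt _ (by decide)
theorem sx_lt (i : ℕ) : sx i < 18 := Nat.mod_lt _ (by decide)
theorem ti_lt (v i : ℕ) : ti v i < nF := Nat.mod_lt _ nF_pos
theorem fa_lt (t : ℕ) : fa t < nV := Nat.mod_lt _ nV_pos
theorem fb_lt (t : ℕ) : fb t < nV := Nat.mod_lt _ nV_pos
theorem fc_lt (t : ℕ) : fc t < nV := Nat.mod_lt _ nV_pos

theorem rot_facts {v i : ℕ} (hv : v < nV) (hi : i < 18) :
    nb (nb v i) (inv v i) = nb v (sx i) ∧ nb (nb v i) (sx (inv v i)) = v ∧ nb v i ≠ v := by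
  have h := ((vertex_facts v hv).2.2.2 i hi).1
  unfold okRot at h
  rw [Bool.and_eq_true, Bool.and_eq_true] at h
  exact ⟨beq_true h.1.1, beq_true h.1.2, ne_of_not_beq h.2⟩

theorem inj_facts {v i j : ℕ} (hv : v < nV) (hi : i < 18) (hj : j < 18) (h : nb v i = nb v j) :
    i = j := by
  rcases Nat.lt_trichotomy i j with hij | hij | hij
  · have h1 := (((vertex_facts v hv).2.2.2 j hj).2.2.2.2 i hij).1
    exact absurd h.symm (ne_of_not_beq h1)
  · exact hij
  · have h1 := (((vertex_facts v hv).2.2.2 i hi).2.2.2.2 j hij).1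
    exact absurd h (ne_of_not_beq h1)

theorem conn_facts {v : ℕ} (hv : v < nV) (h0 : 0 < v) : nb v (par v) < v := by
  have h := (vertex_facts v hv).1
  unfold okConn at h
  rw [Bool.or_eq_true] at h
  rcases h with h | h
  · have := beq_true h
    omega
  · exact Nat.le_of_ble_eq_true h

/-- Position of a vertex. -/
noncomputable def posN (v : ℕ) : E3 := pt (cx v) (cy v) (cz v)

theorem posN_inj {v w : ℕ} (hv : v < nV) (hw : w < nV) (h : posN v = posN w) : v = w := by
  have hx : cx v = cx w := by
    have := congrArg (fun p : E3 => p 0) h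
    simp only [posN, pt_zero] at this
    exact_mod_cast this
  have hy : cy v = cy w := by
    have := congrArg (fun p : E3 => p 1) h
    simp only [posN, pt_one] at this
    exact_mod_cast this
  have hz : cz v = cz w := by
    have := congrArg (fun p : E3 => p 2) h
    simp only [posN, pt_two] at this
    exact_mod_cast this
  have key : ∀ v w : ℕ, v < nV → w < v → cx v = cx w → cy v = cy w → cz v = cz w → False := by
    intro v w hv hw hx hy hz
    have h := (vertex_facts v hv).2.2.1 w hw
    unfold okPos at h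
    rw [hx, hy, hz, Nat.beq_refl, Nat.beq_refl, Nat.beq_refl] at h
    exact absurd h (by decide)
  rcases Nat.lt_trichotomy v w with hvw | hvw | hvw
  · exact (key w v hw hvw hx.symm hy.symm hz.symm).elim
  · exact hvw
  · exact (key v w hv hvw hx hy hz).elim

theorem det4_posN (p a b c : ℕ) :
    det4 (posN p) (posN a) (posN b) (posN c) = ((detZ p a b c : ℤ) : ℝ) := by
  unfold det4 detZ posN
  simp only [pt_zero, pt_one, pt_two]
  push_cast
  ring

theorem det_facts {v i : ℕ} (hv : v < nV) (hi : i < 18) :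
    det4 (posN v) (posN (nb v i)) (posN (nb v (sx i))) (posN (nb v (sx (sx i)))) ≠ 0 := by
  have h := ((vertex_facts v hv).2.2.2 i hi).2.1
  rw [det4_posN]
  unfold okDet at h
  intro h0
  have h1 : detZ v (nb v i) (nb v (sx i)) (nb v (sx (sx i))) = 0 := by exact_mod_cast h0
  rw [h1] at h
  exact absurd h (by decide)

theorem cross_facts {v i j : ℕ} (hv : v < nV) (hi : i < 18) (hj : j < 18) (hij : i ≠ j) :
    ¬ Collinear ℝ ({posN v, posN (nb v i), posN (nb v j)} : Set E3) := by
  have key0 : ∀ (f g : ℕ → ℕ) (s t : Fin 3), (∀ u, posN u s = f u) → (∀ u, posN u t = g u) →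
      ∀ p a b : ℕ, okCr f g p a b = true →
      ¬ Collinear ℝ ({posN p, posN a, posN b} : Set E3) := by
    intro f g s t hf hg p a b h
    apply not_collinear_of_cross s t
    have h1 := ne_of_not_beq h
    intro h0
    apply h1
    rw [hf, hf, hf, hg, hg, hg] at h0
    have h2 : ((f a * g b + g a * f p + g p * f b : ℕ) : ℝ) =
        ((g a * f b + f a * g p + f p * g b : ℕ) : ℝ) := by
      push_cast
      linarith
    have h3 : f a * g b + g a * f p + g p * f b =
        g a * f b + f a * g p + f p * g b := by exact_mod_cast h2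
    exact h3
  have px : ∀ u, posN u 0 = cx u := fun u => by simp [posN]
  have py : ∀ u, posN u 1 = cy u := fun u => by simp [posN]
  have pz : ∀ u, posN u 2 = cz u := fun u => by simp [posN]
  have key : ∀ p a b : ℕ, okCross p a b = true →
      ¬ Collinear ℝ ({posN p, posN a, posN b} : Set E3) := by
    intro p a b h
    unfold okCross at h
    rw [Bool.or_eq_true, Bool.or_eq_true] at h
    rcases h with h | h | h
    · exact key0 cy cz 1 2 py pz p a b h
    · exact key0 cz cx 2 0 pz px p a b h
    · exact key0 cx cy 0 1 px py p a b h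
  rcases Nat.lt_or_gt_of_ne hij with hlt | hlt
  · have h1 := (((vertex_facts v hv).2.2.2 j hj).2.2.2.2 i hlt).2.1
    have h2 := key v (nb v j) (nb v i) h1
    rwa [Set.pair_comm] at h2
  · exact key v _ _ (((vertex_facts v hv).2.2.2 i hi).2.2.2.2 j hlt).2.1

/-- The real affine functional with natural coefficients. -/
noncomputable def fn (A B C E : ℕ) (x : E3) : ℝ :=
  A * x 0 + B * x 1 + C * x 2 + E * (MM - x 0 - x 1 - x 2)

theorem fn_affine (A B C E : ℕ) (x y : E3) (a b : ℝ) (hab : a + b = 1) :
    fn A B C E (a • x + b • y) = a * fn A B C E x + b * fn A B C E y := by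
  unfold fn
  simp only [PiLp.add_apply, PiLp.smul_apply, smul_eq_mul]
  have : a = 1 - b := by linarith
  subst this
  ring

theorem fn_posN (A B C E : ℕ) {v : ℕ} (hv : v < nV) :
    fn A B C E (posN v) = (ev A B C E v : ℝ) := by
  have hs := (vertex_facts v hv).2.1
  have hs' : cx v + cy v + cz v ≤ MM := Nat.le_of_ble_eq_true hs
  have hw : (cw v : ℝ) = MM - cx v - cy v - cz v := by
    have : cw v = MM - (cx v + cy v + cz v) := rfl
    rw [this, Nat.cast_sub hs']
    push_cast
    ring
  have he : ev A B C E v = A * cx v + B * cy v + C * cz v + E * cw v := rfl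
  rw [he]
  push_cast
  rw [hw]
  unfold fn posN
  simp only [pt_zero, pt_one, pt_two]

/-- Separation of two triangles by a functional. -/
theorem sep_hull {A B C E D : ℕ} {S T : Set ℕ} (hS' : ∀ x ∈ S, x < nV) (hT' : ∀ x ∈ T, x < nV)
    (hS : ∀ x ∈ S, ev A B C E x ≤ D) (hT : ∀ x ∈ T, D ≤ ev A B C E x)
    (hTS : ∀ x ∈ T, x ∉ S → D < ev A B C E x) :
    convexHull ℝ (posN '' S) ∩ convexHull ℝ (posN '' T) ⊆ convexHull ℝ (posN '' S ∩ posN '' T) := by
  apply hull_inter_subset (fn A B C E) (fn_affine A B C E) (D : ℝ)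
  · rintro _ ⟨x, hx, rfl⟩
    rw [fn_posN A B C E (hS' x hx)]
    exact_mod_cast hS x hx
  · rintro _ ⟨x, hx, rfl⟩
    rw [fn_posN A B C E (hT' x hx)]
    exact_mod_cast hT x hx
  · rintro _ ⟨x, hx, rfl⟩ hn
    rw [fn_posN A B C E (hT' x hx)]
    have : x ∉ S := fun h => hn ⟨x, h, rfl⟩
    exact_mod_cast hTS x hx this

theorem exists_testBit_of_land {x y : ℕ} (h : Nat.land x y ≠ 0) :
    ∃ k, x.testBit k = true ∧ y.testBit k = true := by
  by_contra hc
  push Not at hc
  apply h
  have : x &&& y = 0 := by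
    apply Nat.eq_of_testBit_eq
    intro k
    rw [Nat.testBit_and, Nat.zero_testBit]
    cases h1 : x.testBit k with
    | false => rfl
    | true =>
      have := hc k h1
      simp at this
      rw [this]
      rfl
  exact this

theorem testBit_look {t w i k : ℕ} (h : (look t w i).testBit k = true) : k < w := by
  unfold look at h
  have h' : (Nat.shiftRight t (Nat.mul w i) % 2 ^ w).testBit k = true := h
  rw [Nat.testBit_mod_two_pow] at h'
  by_contra hk
  rw [decide_eq_false hk] at h'
  exact absurd h' (by simp)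

theorem testBit_nmask {w x k : ℕ} (hk : k < w)
    (h : (Nat.xor (Nat.sub (Nat.pow 2 w) 1) x).testBit k = true) : x.testBit k = false := by
  have h' : ((2 ^ w - 1) ^^^ x).testBit k = true := h
  rw [Nat.testBit_xor, Nat.testBit_two_pow_sub_one, decide_eq_true hk] at h'
  cases hx : x.testBit k with
  | false => rfl
  | true => rw [hx] at h'; exact absurd h' (by decide)

theorem testBit_land' {x y k : ℕ} (h : (Nat.land x y).testBit k = true) :
    x.testBit k = true ∧ y.testBit k = true := by
  have h' : (x &&& y).testBit k = true := h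
  rw [Nat.testBit_and, Bool.and_eq_true] at h'
  exact h'

theorem testBit_lor' {x y k : ℕ} (h : (Nat.lor x y).testBit k = false) :
    x.testBit k = false ∧ y.testBit k = false := by
  have h' : (x ||| y).testBit k = false := h
  rw [Nat.testBit_or, Bool.or_eq_false_iff] at h'
  exact h'

theorem g_facts {k v : ℕ} (hk : k < nP) (hv : v < nV) :
    ((pm v).testBit k = true → gD k < gev k v) ∧ ((pm v).testBit k = false → gev k v ≤ gD k) := by
  have h := allLT_spec (allLT_spec chkG k hk) v hv
  have h' := beqB_true h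
  constructor
  · intro hb
    rw [hb] at h'
    by_contra hc
    push Not at hc
    rw [Nat.ble_eq_true_of_le hc] at h'
    exact absurd h' (by decide)
  · intro hb
    rw [hb] at h'
    exact Nat.le_of_ble_eq_true h'

/-- Vertex set of a face. -/
def fset (t : ℕ) : Set ℕ := {fa t, fb t, fc t}

theorem mem_fset {t x : ℕ} : x ∈ fset t ↔ x = fa t ∨ x = fb t ∨ x = fc t := by
  simp [fset]

theorem fset_lt {t x : ℕ} (h : x ∈ fset t) : x < nV := by
  rcases mem_fset.mp h with rfl | rfl | rfl
  · exact fa_lt t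
  · exact fb_lt t
  · exact fc_lt t

theorem fP_facts {t k : ℕ} (h : (fP t).testBit k = true) :
    k < nP ∧ ∀ x ∈ fset t, gD k < gev k x := by
  obtain ⟨h12, h3⟩ := testBit_land' h
  obtain ⟨h1, h2⟩ := testBit_land' h12
  have hk : k < nP := testBit_look h1
  refine ⟨hk, ?_⟩
  intro x hx
  rcases mem_fset.mp hx with rfl | rfl | rfl
  · exact (g_facts hk (fa_lt t)).1 h1
  · exact (g_facts hk (fb_lt t)).1 h2
  · exact (g_facts hk (fc_lt t)).1 h3

theorem fN_facts {t k : ℕ} (hk : k < nP) (h : (fN t).testBit k = true) :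
    ∀ x ∈ fset t, gev k x ≤ gD k := by
  unfold fN onesP at h
  have h0 := testBit_nmask (w := nP) hk h
  obtain ⟨h12, h3⟩ := testBit_lor' h0
  obtain ⟨h1, h2⟩ := testBit_lor' h12
  intro x hx
  rcases mem_fset.mp hx with rfl | rfl | rfl
  · exact (g_facts hk (fa_lt t)).2 h1
  · exact (g_facts hk (fb_lt t)).2 h2
  · exact (g_facts hk (fc_lt t)).2 h3

/-- Two faces are separated if a functional is positive on one and nonpositive on the other. -/
theorem sep_of_masks {s t : ℕ} (h : Nat.land (fP s) (fN t) ≠ 0) :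
    convexHull ℝ (posN '' fset t) ∩ convexHull ℝ (posN '' fset s) ⊆
      convexHull ℝ (posN '' fset t ∩ posN '' fset s) := by
  obtain ⟨k, h1, h2⟩ := exists_testBit_of_land h
  obtain ⟨hk, h3⟩ := fP_facts h1
  have h4 := fN_facts hk h2
  exact sep_hull (D := gD k) (fun x hx => fset_lt hx) (fun x hx => fset_lt hx) h4
    (fun x hx => (h3 x hx).le) (fun x hx _ => h3 x hx)

theorem onF_facts {x t : ℕ} (h : onF x t = true) : x ∈ fset t := by
  unfold onF at h
  rw [Bool.or_eq_true, Bool.or_eq_true] at h
  rw [mem_fset]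
  rcases h with (h | h) | h
  · exact Or.inl (beq_true h)
  · exact Or.inr (Or.inl (beq_true h))
  · exact Or.inr (Or.inr (beq_true h))

theorem pair_facts {s t : ℕ} (hs : s < nF) (hst : t < s) :
    (convexHull ℝ (posN '' fset s) ∩ convexHull ℝ (posN '' fset t) ⊆
      convexHull ℝ (posN '' fset s ∩ posN '' fset t)) ∨ ∃ x, x ∈ fset s ∧ x ∈ fset t := by
  have h := allLT_spec (allLT_spec chkPair s hs) t hst
  unfold okPair at h
  cases h1 : Nat.beq (Nat.land (fP s) (fN t)) 0 with
  | false =>
    left
    have := sep_of_masks (Nat.ne_of_beq_eq_false h1)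
    rwa [Set.inter_comm, Set.inter_comm (posN '' fset t)] at this
  | true =>
    rw [h1] at h
    cases h2 : Nat.beq (Nat.land (fN s) (fP t)) 0 with
    | false =>
      left
      have h3 : Nat.land (fP t) (fN s) ≠ 0 := by
        have h4 := Nat.ne_of_beq_eq_false h2
        have h5 : Nat.land (fP t) (fN s) = Nat.land (fN s) (fP t) := Nat.and_comm _ _
        rw [h5]
        exact h4
      exact sep_of_masks h3
    | true =>
      rw [h2] at h
      right
      have h' : ((onF (fa s) t || onF (fb s) t) || onF (fc s) t) = true := h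
      rw [Bool.or_eq_true, Bool.or_eq_true] at h'
      rcases h' with (h' | h') | h'
      · exact ⟨fa s, mem_fset.mpr (Or.inl rfl), onF_facts h'⟩
      · exact ⟨fb s, mem_fset.mpr (Or.inr (Or.inl rfl)), onF_facts h'⟩
      · exact ⟨fc s, mem_fset.mpr (Or.inr (Or.inr rfl)), onF_facts h'⟩

/-- The triangle at a vertex, as a set of vertex numbers. -/
def tset (v i : ℕ) : Set ℕ := {v, nb v i, nb v (sx i)}

theorem mem_tset {v i x : ℕ} : x ∈ tset v i ↔ x = v ∨ x = nb v i ∨ x = nb v (sx i) := by
  simp [tset]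

theorem tset_eq {v i : ℕ} (hv : v < nV) (hi : i < 18) : tset v i = fset (ti v i) := by
  have h := ((vertex_facts v hv).2.2.2 i hi).2.2.1
  unfold okTI at h
  simp only [Bool.or_eq_true, Bool.and_eq_true] at h
  ext x
  rw [mem_tset, mem_fset]
  rcases h with ⟨⟨h1, h2⟩, h3⟩ | ⟨⟨h1, h2⟩, h3⟩ | ⟨⟨h1, h2⟩, h3⟩
  · rw [beq_true h1, beq_true h2, beq_true h3]
  · rw [beq_true h1, beq_true h2, beq_true h3]
    tauto
  · rw [beq_true h1, beq_true h2, beq_true h3]
    tauto

theorem far_facts {v i w j : ℕ} (hv : v < nV) (hi : i < 18) (hw : w < nV) (hj : j < 18)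
    (hd : ∀ x, x ∈ tset v i → x ∈ tset w j → False) :
    convexHull ℝ (posN '' tset v i) ∩ convexHull ℝ (posN '' tset w j) ⊆
      convexHull ℝ (posN '' tset v i ∩ posN '' tset w j) := by
  rw [tset_eq hv hi, tset_eq hw hj] at hd ⊢
  rcases Nat.lt_trichotomy (ti v i) (ti w j) with h | h | h
  · rcases pair_facts (ti_lt w j) h with h1 | ⟨x, h1, h2⟩
    · rwa [Set.inter_comm, Set.inter_comm (posN '' fset (ti v i))]
    · exact (hd x h2 h1).elim
  · exfalso
    apply hd (fa (ti v i)) (mem_fset.mpr (Or.inl rfl))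
    rw [← h]
    exact mem_fset.mpr (Or.inl rfl)
  · rcases pair_facts (ti_lt v i) h with h1 | ⟨x, h1, h2⟩
    · exact h1
    · exact (hd x h1 h2).elim

theorem l_facts {v i k : ℕ} (hv : v < nV) (hi : i < 18) (hk : k < nL) :
    ((lm v i).testBit k = true → lev v k v < lev v k (nb v i)) ∧
    ((lm v i).testBit k = false → lev v k (nb v i) ≤ lev v k v) := by
  have h := ((vertex_facts v hv).2.2.2 i hi).2.2.2.1 k hk
  have h' := beqB_true h
  constructor
  · intro hb
    rw [hb] at h'
    by_contra hc
    push Not at hc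
    rw [Nat.ble_eq_true_of_le hc] at h'
    exact absurd h' (by decide)
  · intro hb
    rw [hb] at h'
    exact Nat.le_of_ble_eq_true h'

theorem tset_lt {v i x : ℕ} (hv : v < nV) (h : x ∈ tset v i) : x < nV := by
  rcases mem_tset.mp h with rfl | rfl | rfl
  · exact hv
  · exact nb_lt _ _
  · exact nb_lt _ _

theorem star_sep {v i j : ℕ} (hv : v < nV) (hi : i < 18) (hj : j < 18)
    (h : Nat.land (lP v i) (lN v j) ≠ 0) :
    convexHull ℝ (posN '' tset v j) ∩ convexHull ℝ (posN '' tset v i) ⊆
      convexHull ℝ (posN '' tset v j ∩ posN '' tset v i) := by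
  obtain ⟨k, h1, h2⟩ := exists_testBit_of_land h
  obtain ⟨h3, h4⟩ := testBit_land' h1
  have hk : k < nL := testBit_look h3
  unfold lN onesL at h2
  obtain ⟨h5, h6⟩ := testBit_lor' (testBit_nmask (w := nL) hk h2)
  have e1 := (l_facts hv hi hk).1 h3
  have e2 := (l_facts hv (sx_lt i) hk).1 h4
  have e3 := (l_facts hv hj hk).2 h5
  have e4 := (l_facts hv (sx_lt j) hk).2 h6
  refine sep_hull (A := look tLA wLA (Nat.add (Nat.mul nL v) k))
    (B := look tLB wLB (Nat.add (Nat.mul nL v) k)) (C := look tLC wLC (Nat.add (Nat.mul nL v) k))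
    (E := look tLE wLE (Nat.add (Nat.mul nL v) k)) (D := lev v k v) (fun x hx => tset_lt hv hx) (fun x hx => tset_lt hv hx)
    ?_ ?_ ?_
  · intro x hx
    rcases mem_tset.mp hx with rfl | rfl | rfl
    · exact le_refl _
    · exact e3
    · exact e4
  · intro x hx
    rcases mem_tset.mp hx with rfl | rfl | rfl
    · exact le_refl _
    · exact e1.le
    · exact e2.le
  · intro x hx hn
    rcases mem_tset.mp hx with rfl | rfl | rfl
    · exact absurd (mem_tset.mpr (Or.inl rfl)) hn
    · exact e1
    · exact e2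

theorem star_facts {v i j : ℕ} (hv : v < nV) (hi : i < 18) (hj : j < 18) (hij : i ≠ j)
    (h1 : i ≠ sx j) (h2 : j ≠ sx i) :
    convexHull ℝ (posN '' tset v i) ∩ convexHull ℝ (posN '' tset v j) ⊆
      convexHull ℝ (posN '' tset v i ∩ posN '' tset v j) := by
  have key : ∀ i j, i < 18 → j < 18 → i ≠ sx j → j ≠ sx i → okStar v i j = true →
      convexHull ℝ (posN '' tset v i) ∩ convexHull ℝ (posN '' tset v j) ⊆
      convexHull ℝ (posN '' tset v i ∩ posN '' tset v j) := by
    intro i j hi hj h1 h2 h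
    unfold okStar at h
    simp only [Bool.or_eq_true] at h
    rcases h with (h | h) | (h | h)
    · exact absurd (beq_true h) h1
    · exact absurd (beq_true h) h2
    · have := star_sep hv hi hj (ne_of_not_beq h)
      rwa [Set.inter_comm, Set.inter_comm (posN '' tset v j)] at this
    · have h3 : Nat.land (lP v j) (lN v i) ≠ 0 := by
        have h4 := ne_of_not_beq h
        have h5 : Nat.land (lP v j) (lN v i) = Nat.land (lN v i) (lP v j) := Nat.and_comm _ _
        rw [h5]
        exact h4
      exact star_sep hv hj hi h3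
  rcases Nat.lt_or_gt_of_ne hij with hlt | hlt
  · have := key j i hj hi h2 h1 (((vertex_facts v hv).2.2.2 j hj).2.2.2.2 i hlt).2.2
    rwa [Set.inter_comm, Set.inter_comm (posN '' tset v j)] at this
  · exact key i j hi hj h1 h2 (((vertex_facts v hv).2.2.2 i hi).2.2.2.2 j hlt).2.2

/-- The rotation system. -/
def cc (v : Fin nV) (i : ZMod 18) : Fin nV := ⟨nb v.val i.val, nb_lt _ _⟩

theorem val_succ (i : ZMod 18) : (i + 1).val = sx i.val := by
  rw [ZMod.val_add]
  rfl

theorem val_cc (v : Fin nV) (i : ZMod 18) : (cc v i).val = nb v.val i.val := rfl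

theorem val_cc_succ (v : Fin nV) (i : ZMod 18) : (cc v (i + 1)).val = nb v.val (sx i.val) := by
  rw [val_cc, val_succ]

theorem zval_lt (i : ZMod 18) : i.val < 18 := ZMod.val_lt i

theorem cast_inv {m : ℕ} (hm : m < 18) : ((m : ℕ) : ZMod 18).val = m := ZMod.val_cast_of_lt hm

/-- Image of a triangle. -/
theorem image_tri_posN (v : Fin nV) (i : ZMod 18) :
    (fun v : Fin nV => posN v.val) '' ((tri cc v i : Finset (Fin nV)) : Set (Fin nV)) =
      posN '' tset v.val i.val := by
  rw [image_tri]
  unfold tset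
  rw [Set.image_insert_eq, Set.image_insert_eq, Set.image_singleton]
  rw [val_cc, val_cc_succ]

/-- The certificate gives an equivelar manifold. -/
theorem main {g : ℕ} (hg : 12 * g + 6 * nV = nV * 18 + 12) :
    IsEquivelarTri nV 18 g (fun v => posN v.val) (facesOf cc) := by
  apply isEquivelarTri_of (by norm_num)
  · intro v i h
    exact (rot_facts v.isLt (zval_lt i)).2.2 (congrArg Fin.val h)
  · intro v i j h
    exact ZMod.val_injective 18 (inj_facts v.isLt (zval_lt i) (zval_lt j) (congrArg Fin.val h))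
  · intro v i
    obtain ⟨h1, h2, _⟩ := rot_facts v.isLt (zval_lt i)
    refine ⟨((inv v.val i.val : ℕ) : ZMod 18), ?_, ?_⟩
    · apply Fin.ext
      rw [val_cc, val_cc_succ, cast_inv (inv_lt _ _), val_cc]
      exact h1
    · apply Fin.ext
      rw [val_cc_succ, cast_inv (inv_lt _ _), val_cc]
      exact h2
  · intro v w h
    exact Fin.ext (posN_inj v.isLt w.isLt h)
  · intro v hv
    refine ⟨((par v.val : ℕ) : ZMod 18), ?_⟩
    rw [Fin.lt_def, val_cc, cast_inv (par_lt _)]
    exact conn_facts v.isLt hv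
  · intro v i
    have := det_facts v.isLt (zval_lt i)
    rw [← val_cc, ← val_succ, ← val_succ] at this
    exact this
  · intro v i j hij
    exact cross_facts v.isLt (zval_lt i) (zval_lt j) (fun h => hij (ZMod.val_injective 18 h))
  · intro v i j hij h1 h2
    rw [image_tri_posN, image_tri_posN]
    apply star_facts v.isLt (zval_lt i) (zval_lt j)
    · exact fun h => hij (ZMod.val_injective 18 h)
    · intro h
      apply h2
      apply ZMod.val_injective 18
      rw [val_succ]
      exact h
    · intro h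
      apply h1
      apply ZMod.val_injective 18
      rw [val_succ]
      exact h
  · intro v i w j hd
    rw [image_tri_posN, image_tri_posN]
    apply far_facts v.isLt (zval_lt i) w.isLt (zval_lt j)
    intro x hx hx'
    rw [Finset.disjoint_left] at hd
    have hxV : x < nV := tset_lt v.isLt hx
    apply hd (a := ⟨x, hxV⟩)
    · rw [mem_tri]
      rcases mem_tset.mp hx with h | h | h
      · exact Or.inl (Fin.ext h)
      · exact Or.inr (Or.inl (Fin.ext h))
      · exact Or.inr (Or.inr (Fin.ext (by rw [val_cc_succ]; exact h)))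
    · rw [mem_tri]
      rcases mem_tset.mp hx' with h | h | h
      · exact Or.inl (Fin.ext h)
      · exact Or.inr (Or.inl (Fin.ext h))
      · exact Or.inr (Or.inr (Fin.ext (by rw [val_cc_succ]; exact h)))
  · exact hg

end Pool.Agent.Lib.MP_9035cc_co
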